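import Pool.Agent.Helper96.GP.Defs

/-!
# The product functional: definitions
-/

open Finset
open scoped Classical

namespace GPG

noncomputable section

/-- Value of the point `s` of `X` (included) or `Y` (frozen) at time `t`. -/
def val (L : LS) (P : Par) (X : Finset ℕ) (t : ℕ) (C : Finset ℕ) (s : ℕ) : ℝ :=
  if t ≤ s then (run L P C t).m P s else if s ∈ X then (if s ∈ C then 1 else 0) else pr L P C s

/-- The product functional. -/
def FF (L : LS) (P : Par) (v : ℕ) (X Y : Finset ℕ) (t : ℕ) (C : Finset ℕ) : ℝ :=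
  (run L P C t).Z v * (∏ s ∈ X ∪ Y, val L P X t C s) *
  (∏ s ∈ X ∪ Y, ((run L P C t).Off v s * (run L P C t).On v s)⁻¹) *
  ∏ q ∈ prs (X ∪ Y), ((run L P C t).Off q.1 q.2 *
    (if L.Coll q.1 q.2 v then 1 else (run L P C t).On q.1 q.2))⁻¹

end

end GPG
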