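import Pool.Agent.Helper96.GP.Basics
import Pool.Agent.Helper7.GP.FFDefs

/-!
# One step of the product functional
-/

open Finset
open scoped Classical

namespace GPG

noncomputable section

variable {L : LS} {P : Par} {pb : ℝ}

theorem FF_run_succ (C C' : Finset ℕ) (t : ℕ) (h : ∀ x < t, (x ∈ C' ↔ x ∈ C)) :
    run L P C' (t + 1) = step L P C' t (run L P C t) := by
  show step L P C' t (run L P C' t) = _
  rw [run_congr C' C t h]

theorem FF_Off_succ (C C' : Finset ℕ) (t u w : ℕ) (h : ∀ x < t, (x ∈ C' ↔ x ∈ C)) :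
    ((run L P C' (t + 1)).Off u w)⁻¹ = ((run L P C t).Off u w)⁻¹ *
      (if t < u ∧ t < w ∧ L.Hit C t u ∧ L.Hit C t w ∧ ¬ L.Coll t u w then 1 - pr L P C t
        else 1) := by
  rw [FF_run_succ C C' t h]
  show (stepOff L P C' t (run L P C t) u w)⁻¹ = _
  unfold stepOff
  rw [Hit_congr C' C t u h, Hit_congr C' C t w h]
  split_ifs
  · rw [inv_div, div_eq_mul_inv, mul_comm]; rfl
  · rw [mul_one]

theorem FF_On_succ (C C' : Finset ℕ) (t u w : ℕ) (h : ∀ x < t, (x ∈ C' ↔ x ∈ C)) :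
    ((run L P C' (t + 1)).On u w)⁻¹ = ((run L P C t).On u w)⁻¹ *
      (if t < u ∧ t < w ∧ L.Hit C t u ∧ L.Hit C t w ∧ L.Coll t u w then 1 - pr L P C t
        else 1) := by
  rw [FF_run_succ C C' t h]
  show (stepOn L P C' t (run L P C t) u w)⁻¹ = _
  unfold stepOn
  rw [Hit_congr C' C t u h, Hit_congr C' C t w h]
  split_ifs
  · rw [inv_div, div_eq_mul_inv, mul_comm]; rfl
  · rw [mul_one]

/-- the tilt of an unstopped point -/
theorem FF_Z_succ (C C' : Finset ℕ) (t v : ℕ) (h : ∀ x < t, (x ∈ C' ↔ x ∈ C))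
    (hs : ¬ (run L P C t).stop v) (ht : t < v) :
    (run L P C' (t + 1)).Z v = (run L P C t).Z v *
      (if L.Hit C t v then (if t ∈ C' then 0 else (1 - pr L P C t)⁻¹) else 1) := by
  rw [FF_run_succ C C' t h]
  show stepZ L P C' t (run L P C t) v = _
  unfold stepZ
  rw [Hit_congr C' C t v h, if_neg hs]
  by_cases h1 : L.Hit C t v
  · rw [if_pos ⟨ht, h1⟩, if_pos h1]
    by_cases h2 : t ∈ C'
    · rw [if_pos h2, if_pos h2, mul_zero]
    · rw [if_neg h2, if_neg h2, div_eq_mul_inv]; rfl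
  · rw [if_neg (fun h2 => h1 h2.2), if_neg h1, mul_one]

theorem FF_m_succ (hG : Good L P pb) (C C' : Finset ℕ) (t s : ℕ)
    (h : ∀ x < t, (x ∈ C' ↔ x ∈ C)) (ht : t < s) :
    (run L P C' (t + 1)).m P s ≤ (if L.Hit C t s then
      (if t ∈ C' then 0 else (1 - pr L P C t)⁻¹) else 1) * (run L P C t).m P s := by
  have hp := one_sub_pr_pos hG C t
  have hm := m_nonneg hG C t s
  have hf : 0 ≤ (if L.Hit C t s then (if t ∈ C' then (0 : ℝ) else (1 - pr L P C t)⁻¹) else 1) := by
    split_ifs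
    · exact le_rfl
    · exact inv_nonneg.2 hp.le
    · exact zero_le_one
  by_cases h1 : (run L P C' (t + 1)).stop s
  · have : (run L P C' (t + 1)).m P s = 0 := by unfold St.m; rw [if_pos h1]
    rw [this]
    exact mul_nonneg hf hm
  · have h0 : ¬ (run L P C t).stop s := by
      intro h2
      apply h1
      rw [FF_run_succ C C' t h]
      exact Or.inl h2
    have e1 : (run L P C' (t + 1)).m P s = P.lam s * (run L P C' (t + 1)).Z s := by
      unfold St.m; rw [if_neg h1]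
    have e2 : (run L P C t).m P s = P.lam s * (run L P C t).Z s := by
      unfold St.m; rw [if_neg h0]
    rw [e1, e2, FF_Z_succ C C' t s h h0 ht]
    apply le_of_eq
    ring

/-- the value at the next time, `s ≠ t` -/
theorem FF_val_succ (hG : Good L P pb) (X : Finset ℕ) (C C' : Finset ℕ) (t s : ℕ)
    (h : ∀ x < t, (x ∈ C' ↔ x ∈ C)) (ht : s ≠ t) :
    val L P X (t + 1) C' s ≤ (if t < s ∧ L.Hit C t s then
      (if t ∈ C' then 0 else (1 - pr L P C t)⁻¹) else 1) * val L P X t C s := by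
  unfold val
  rcases lt_or_gt_of_ne ht with h1 | h1
  · have e1 : ¬ t + 1 ≤ s := by omega
    have e2 : ¬ t ≤ s := by omega
    have e3 : ¬ (t < s ∧ L.Hit C t s) := fun h2 => absurd h2.1 (by omega)
    have e4 : (s ∈ C') = (s ∈ C) := propext (h s h1)
    rw [if_neg e1, if_neg e2, if_neg e3, one_mul, pr_congr C' C s (fun x hx => h x (by omega))]
    simp only [e4, le_refl]
  · rw [if_pos (by omega), if_pos h1.le]
    have := FF_m_succ hG C C' t s h h1
    by_cases h2 : L.Hit C t s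
    · rw [if_pos h2] at this
      rw [if_pos ⟨h1, h2⟩]
      exact this
    · rw [if_neg h2] at this
      rw [if_neg (fun h3 => h2 h3.2)]
      exact this

theorem FF_val_nonneg (hG : Good L P pb) (X : Finset ℕ) (C : Finset ℕ) (t s : ℕ) :
    0 ≤ val L P X t C s := by
  unfold val
  split_ifs
  · exact m_nonneg hG C t s
  · exact zero_le_one
  · exact le_rfl
  · exact pr_nonneg hG C s

theorem FF_val_self (X : Finset ℕ) (C C' : Finset ℕ) (t : ℕ)
    (h : ∀ x < t, (x ∈ C' ↔ x ∈ C)) :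
    val L P X (t + 1) C' t = if t ∈ X then (if t ∈ C' then 1 else 0) else pr L P C t := by
  unfold val
  rw [if_neg (by omega), pr_congr C' C t h]

/-- the multiplier of a pair -/
def FFc (L : LS) (v t : ℕ) (C : Finset ℕ) (p : ℝ) (q : ℕ × ℕ) : ℝ :=
  (if t < q.1 ∧ t < q.2 ∧ L.Hit C t q.1 ∧ L.Hit C t q.2 ∧ ¬ L.Coll t q.1 q.2 then 1 - p else 1) *
  (if L.Coll q.1 q.2 v then 1 else
    (if t < q.1 ∧ t < q.2 ∧ L.Hit C t q.1 ∧ L.Hit C t q.2 ∧ L.Coll t q.1 q.2 then 1 - p else 1))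

theorem FFc_pair (C C' : Finset ℕ) (v t : ℕ) (q : ℕ × ℕ) (h : ∀ x < t, (x ∈ C' ↔ x ∈ C)) :
    ((run L P C' (t + 1)).Off q.1 q.2 *
      (if L.Coll q.1 q.2 v then 1 else (run L P C' (t + 1)).On q.1 q.2))⁻¹ =
    FFc L v t C (pr L P C t) q * ((run L P C t).Off q.1 q.2 *
      (if L.Coll q.1 q.2 v then 1 else (run L P C t).On q.1 q.2))⁻¹ := by
  unfold FFc
  by_cases h1 : L.Coll q.1 q.2 v
  · rw [if_pos h1, if_pos h1, if_pos h1, mul_one, mul_one, mul_one,
      FF_Off_succ C C' t q.1 q.2 h, mul_comm]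
  · rw [if_neg h1, if_neg h1, if_neg h1, mul_inv, mul_inv, FF_Off_succ C C' t q.1 q.2 h,
      FF_On_succ C C' t q.1 q.2 h]
    ring

theorem FFc_nonneg {v t : ℕ} {C : Finset ℕ} {p : ℝ} (hp : 0 ≤ 1 - p) (q : ℕ × ℕ) :
    0 ≤ FFc L v t C p q := by
  unfold FFc
  refine mul_nonneg ?_ ?_
  · split_ifs
    · exact hp
    · exact zero_le_one
  · split_ifs
    · exact zero_le_one
    · exact hp
    · exact zero_le_one

theorem FFc_le_one {v t : ℕ} {C : Finset ℕ} {p : ℝ} (hp : 0 ≤ 1 - p) (hp0 : 0 ≤ p) (q : ℕ × ℕ) :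
    FFc L v t C p q ≤ 1 := by
  unfold FFc
  refine mul_le_one₀ ?_ ?_ ?_
  · split_ifs
    · linarith
    · exact le_rfl
  · split_ifs
    · exact zero_le_one
    · exact hp
    · exact zero_le_one
  · split_ifs
    · exact le_rfl
    · linarith
    · exact le_rfl

/-- the multiplier of a pair of points which are hit, if `v` is not hit -/
theorem FFc_eq {v t : ℕ} {C : Finset ℕ} {p : ℝ} {q : ℕ × ℕ} (hv : ¬ L.Hit C t v)
    (h1 : t < q.1) (h2 : t < q.2) (h3 : L.Hit C t q.1) (h4 : L.Hit C t q.2) (h5 : q.1 ≠ q.2) :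
    FFc L v t C p q = 1 - p := by
  unfold FFc
  by_cases h6 : L.Coll t q.1 q.2
  · have h7 : ¬ L.Coll q.1 q.2 v := by
      rintro ⟨j, hj, hj1, hj2, hjv⟩
      obtain ⟨i, hi, hit, hi1, hi2⟩ := h6
      have hij : i = j := L.uniq i hi j hj q.1 q.2 h5 hi1 hi2 hj1 hj2
      obtain ⟨k, hk, hkt, hk1, hka⟩ := h3
      have hik : k = i := L.uniq k hk i hi t q.1 (by omega) hkt hk1 hit hi1
      exact hv ⟨k, hk, hkt, by rw [hik, hij]; exact hjv, hka⟩
    rw [if_neg (fun h8 => h8.2.2.2.2 h6), if_neg h7, if_pos ⟨h1, h2, h3, h4, h6⟩, one_mul]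
  · rw [if_pos ⟨h1, h2, h3, h4, h6⟩]
    have : (if L.Coll q.1 q.2 v then (1 : ℝ) else (if t < q.1 ∧ t < q.2 ∧ L.Hit C t q.1 ∧
        L.Hit C t q.2 ∧ L.Coll t q.1 q.2 then 1 - p else 1)) = 1 := by
      split_ifs with h8 h9
      · rfl
      · exact absurd h9.2.2.2.2 h6
      · rfl
    rw [this, mul_one]

/-- the product of the multipliers of the pairs -/
theorem FFc_prod {v t : ℕ} {C T : Finset ℕ} {p : ℝ} (hp : 0 ≤ 1 - p) (hp0 : 0 ≤ p)
    (hv : ¬ L.Hit C t v) :
    (1 - p) * ∏ q ∈ prs T, FFc L v t C p q ≤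
      (1 - p) ^ (T.filter (fun s => t < s ∧ L.Hit C t s)).card ∨
      (T.filter (fun s => t < s ∧ L.Hit C t s)).card = 0 := by
  set S := T.filter (fun s => t < s ∧ L.Hit C t s) with hS
  by_cases hne : S.Nonempty
  · left
    set s0 := S.min' hne with hs0
    have hs0S : s0 ∈ S := S.min'_mem hne
    have hmem : ∀ s ∈ S, s ∈ T ∧ t < s ∧ L.Hit C t s := fun s hs => by
      rw [hS, mem_filter] at hs; exact hs
    let I : Finset (ℕ × ℕ) := (S.erase s0).image (fun s => (s0, s))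
    have hIsub : I ⊆ prs T := by
      intro q hq
      obtain ⟨s, hs, rfl⟩ := mem_image.1 hq
      rw [mem_erase] at hs
      unfold prs
      rw [mem_filter, mem_product]
      refine ⟨⟨(hmem s0 hs0S).1, (hmem s hs.2).1⟩, ?_⟩
      exact lt_of_le_of_ne (S.min'_le s hs.2) (Ne.symm hs.1)
    have hIcard : I.card = S.card - 1 := by
      rw [card_image_of_injective _ (fun a b hab => (Prod.mk.inj hab).2), card_erase_of_mem hs0S]
    have h1 : ∏ q ∈ prs T, FFc L v t C p q ≤ ∏ q ∈ I, FFc L v t C p q := by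
      rw [← prod_sdiff hIsub]
      have h2 : ∏ q ∈ prs T \ I, FFc L v t C p q ≤ 1 :=
        prod_le_one (fun q _ => FFc_nonneg hp q) (fun q _ => FFc_le_one hp hp0 q)
      have h3 : 0 ≤ ∏ q ∈ I, FFc L v t C p q := prod_nonneg (fun q _ => FFc_nonneg hp q)
      calc _ ≤ 1 * ∏ q ∈ I, FFc L v t C p q := mul_le_mul_of_nonneg_right h2 h3
        _ = _ := one_mul _
    have h4 : ∏ q ∈ I, FFc L v t C p q = (1 - p) ^ (S.card - 1) := by
      rw [← hIcard, ← prod_const]
      refine prod_congr rfl fun q hq => ?_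
      obtain ⟨s, hs, rfl⟩ := mem_image.1 hq
      rw [mem_erase] at hs
      exact FFc_eq hv (hmem s0 hs0S).2.1 (hmem s hs.2).2.1 (hmem s0 hs0S).2.2 (hmem s hs.2).2.2
        (Ne.symm hs.1)
    have hcard : 0 < S.card := card_pos.2 hne
    calc (1 - p) * ∏ q ∈ prs T, FFc L v t C p q ≤ (1 - p) * (1 - p) ^ (S.card - 1) := by
          rw [← h4]; exact mul_le_mul_of_nonneg_left h1 hp
      _ = (1 - p) ^ S.card := by
          rw [← pow_succ']
          congr 1; omega
  · right
    rw [not_nonempty_iff_eq_empty] at hne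
    rw [hne, card_empty]

theorem FF_val_self' (X : Finset ℕ) (C : Finset ℕ) (t : ℕ) :
    val L P X t C t = pr L P C t := by
  unfold val
  rw [if_pos le_rfl]; rfl

/-- the part of the functional which does not contain the value at `t` -/
def FFG (L : LS) (P : Par) (v : ℕ) (X Y : Finset ℕ) (t : ℕ) (C : Finset ℕ) : ℝ :=
  (run L P C t).Z v * (∏ s ∈ (X ∪ Y).erase t, val L P X t C s) *
  (∏ s ∈ X ∪ Y, ((run L P C t).Off v s * (run L P C t).On v s)⁻¹) *
  ∏ q ∈ prs (X ∪ Y), ((run L P C t).Off q.1 q.2 *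
    (if L.Coll q.1 q.2 v then 1 else (run L P C t).On q.1 q.2))⁻¹

theorem FF_Off_pos (hG : Good L P pb) (C : Finset ℕ) (t u v : ℕ) :
    0 < (run L P C t).Off u v := lt_of_lt_of_le one_pos (Off_one_le hG C t u v)

theorem FF_On_pos (hG : Good L P pb) (C : Finset ℕ) (t u v : ℕ) :
    0 < (run L P C t).On u v := lt_of_lt_of_le one_pos (On_one_le hG C t u v)

theorem FF_pairs_nonneg (hG : Good L P pb) (v : ℕ) (T : Finset ℕ) (t : ℕ) (C : Finset ℕ) :
    0 ≤ (∏ s ∈ T, ((run L P C t).Off v s * (run L P C t).On v s)⁻¹) ∧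
    0 ≤ ∏ q ∈ prs T, ((run L P C t).Off q.1 q.2 *
    (if L.Coll q.1 q.2 v then 1 else (run L P C t).On q.1 q.2))⁻¹ := by
  constructor
  · refine prod_nonneg fun s _ => inv_nonneg.2 ?_
    exact mul_nonneg (FF_Off_pos hG C t v s).le (FF_On_pos hG C t v s).le
  · refine prod_nonneg fun q _ => inv_nonneg.2 ?_
    refine mul_nonneg (FF_Off_pos hG C t q.1 q.2).le ?_
    split_ifs
    · exact zero_le_one
    · exact (FF_On_pos hG C t q.1 q.2).le

theorem FFG_nonneg (hG : Good L P pb) (v : ℕ) (X Y : Finset ℕ) (t : ℕ) (C : Finset ℕ) :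
    0 ≤ FFG L P v X Y t C := by
  unfold FFG
  obtain ⟨h1, h2⟩ := FF_pairs_nonneg hG v (X ∪ Y) t C
  exact mul_nonneg (mul_nonneg (mul_nonneg (Z_nonneg hG C t v)
    (prod_nonneg fun s _ => FF_val_nonneg hG X C t s)) h1) h2

theorem FF_eq_FFG (v : ℕ) (X Y : Finset ℕ) (t : ℕ) (C : Finset ℕ) :
    FF L P v X Y t C = FFG L P v X Y t C * (if t ∈ X ∪ Y then pr L P C t else 1) := by
  unfold FF FFG
  by_cases h : t ∈ X ∪ Y
  · rw [if_pos h, ← mul_prod_erase _ _ h, FF_val_self']
    ring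
  · rw [if_neg h, erase_eq_of_notMem h, mul_one]

/-- the multipliers of the points -/
def FFa (L : LS) (t : ℕ) (C C' : Finset ℕ) (p : ℝ) (s : ℕ) : ℝ :=
  if t < s ∧ L.Hit C t s then (if t ∈ C' then 0 else (1 - p)⁻¹) else 1

/-- the multipliers of the pairs with `v` -/
def FFb (L : LS) (v t : ℕ) (C : Finset ℕ) (p : ℝ) (s : ℕ) : ℝ :=
  if L.Hit C t v ∧ t < s ∧ L.Hit C t s then 1 - p else 1

theorem FFb_pair (C C' : Finset ℕ) (v t s : ℕ) (ht : t < v) (h : ∀ x < t, (x ∈ C' ↔ x ∈ C)) :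
    ((run L P C' (t + 1)).Off v s * (run L P C' (t + 1)).On v s)⁻¹ =
    FFb L v t C (pr L P C t) s * ((run L P C t).Off v s * (run L P C t).On v s)⁻¹ := by
  unfold FFb
  rw [mul_inv, mul_inv, FF_Off_succ C C' t v s h, FF_On_succ C C' t v s h]
  by_cases h1 : L.Hit C t v ∧ t < s ∧ L.Hit C t s
  · obtain ⟨h2, h3, h4⟩ := h1
    by_cases h5 : L.Coll t v s
    · simp only [ht, h2, h3, h4, h5, and_true, not_true_eq_false, and_false, if_true,
        if_false]
      ring
    · simp only [ht, h2, h3, h4, h5, and_true, not_false_eq_true, and_false, if_true,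
        if_false]
      ring
  · have e1 : ¬ (t < v ∧ t < s ∧ L.Hit C t v ∧ L.Hit C t s ∧ ¬ L.Coll t v s) :=
      fun h6 => h1 ⟨h6.2.2.1, h6.2.1, h6.2.2.2.1⟩
    have e2 : ¬ (t < v ∧ t < s ∧ L.Hit C t v ∧ L.Hit C t s ∧ L.Coll t v s) :=
      fun h6 => h1 ⟨h6.2.2.1, h6.2.1, h6.2.2.2.1⟩
    rw [if_neg h1, if_neg e1, if_neg e2]
    ring

theorem FF_bound (hG : Good L P pb) (v : ℕ) (X Y : Finset ℕ) (t : ℕ) (ht : t < v)
    (C C' : Finset ℕ) (h : ∀ x < t, (x ∈ C' ↔ x ∈ C)) (hs : ¬ (run L P C t).stop v) :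
    FF L P v X Y (t + 1) C' ≤
      ((if L.Hit C t v then (if t ∈ C' then 0 else (1 - pr L P C t)⁻¹) else 1) *
        (∏ s ∈ (X ∪ Y).erase t, FFa L t C C' (pr L P C t) s) *
        (∏ s ∈ X ∪ Y, FFb L v t C (pr L P C t) s) *
        ∏ q ∈ prs (X ∪ Y), FFc L v t C (pr L P C t) q) * FFG L P v X Y t C *
      (if t ∈ X ∪ Y then (if t ∈ X then (if t ∈ C' then 1 else 0) else pr L P C t) else 1) := by
  have hq := one_sub_pr_pos hG C t
  have hp0 := pr_nonneg hG C t
  set p := pr L P C t with hp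
  obtain ⟨n1, n2⟩ := FF_pairs_nonneg (L := L) (P := P) hG v (X ∪ Y) t C
  -- the product of the values
  have hval : ∏ s ∈ X ∪ Y, val L P X (t + 1) C' s ≤
      (∏ s ∈ (X ∪ Y).erase t, FFa L t C C' p s) * (∏ s ∈ (X ∪ Y).erase t, val L P X t C s) *
      (if t ∈ X ∪ Y then (if t ∈ X then (if t ∈ C' then 1 else 0) else p) else 1) := by
    have h1 : ∏ s ∈ (X ∪ Y).erase t, val L P X (t + 1) C' s ≤
        (∏ s ∈ (X ∪ Y).erase t, FFa L t C C' p s) * (∏ s ∈ (X ∪ Y).erase t, val L P X t C s) := by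
      rw [← prod_mul_distrib]
      refine prod_le_prod (fun s _ => FF_val_nonneg hG X C' (t + 1) s) fun s hs' => ?_
      exact FF_val_succ hG X C C' t s h (mem_erase.1 hs').1
    by_cases h2 : t ∈ X ∪ Y
    · rw [if_pos h2, ← mul_prod_erase _ _ h2, FF_val_self X C C' t h, mul_comm]
      refine mul_le_mul_of_nonneg_right h1 ?_
      split_ifs
      · exact zero_le_one
      · exact le_rfl
      · exact hp0
    · rw [if_neg h2, mul_one]
      rw [erase_eq_of_notMem h2] at h1 ⊢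
      exact h1
  -- the factor of `v`
  have hz0 : 0 ≤ (if L.Hit C t v then (if t ∈ C' then (0 : ℝ) else (1 - p)⁻¹) else 1) := by
    split_ifs
    · exact le_rfl
    · exact inv_nonneg.2 hq.le
    · exact zero_le_one
  have hb0 : 0 ≤ ∏ s ∈ X ∪ Y, FFb L v t C p s := by
    refine prod_nonneg fun s _ => ?_
    unfold FFb
    split_ifs
    · exact hq.le
    · exact zero_le_one
  have hc0 : 0 ≤ ∏ q ∈ prs (X ∪ Y), FFc L v t C p q :=
    prod_nonneg fun q _ => FFc_nonneg hq.le q
  have hZ := Z_nonneg hG C t v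
  have e1 : ∏ s ∈ X ∪ Y, ((run L P C' (t + 1)).Off v s * (run L P C' (t + 1)).On v s)⁻¹ =
      (∏ s ∈ X ∪ Y, FFb L v t C p s) *
        ∏ s ∈ X ∪ Y, ((run L P C t).Off v s * (run L P C t).On v s)⁻¹ := by
    rw [← prod_mul_distrib]
    exact prod_congr rfl fun s _ => FFb_pair C C' v t s ht h
  have e2 : ∏ q ∈ prs (X ∪ Y), ((run L P C' (t + 1)).Off q.1 q.2 *
      (if L.Coll q.1 q.2 v then 1 else (run L P C' (t + 1)).On q.1 q.2))⁻¹ =
      (∏ q ∈ prs (X ∪ Y), FFc L v t C p q) * ∏ q ∈ prs (X ∪ Y), ((run L P C t).Off q.1 q.2 *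
      (if L.Coll q.1 q.2 v then 1 else (run L P C t).On q.1 q.2))⁻¹ := by
    rw [← prod_mul_distrib]
    exact prod_congr rfl fun q _ => FFc_pair C C' v t q h
  unfold FF
  rw [FF_Z_succ C C' t v h hs ht, e1, e2]
  set z := (if L.Hit C t v then (if t ∈ C' then (0 : ℝ) else (1 - p)⁻¹) else 1)
  set Zv := (run L P C t).Z v
  set b := ∏ s ∈ X ∪ Y, FFb L v t C p s
  set c := ∏ q ∈ prs (X ∪ Y), FFc L v t C p q
  set n1' := ∏ s ∈ X ∪ Y, ((run L P C t).Off v s * (run L P C t).On v s)⁻¹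
  set n2' := ∏ q ∈ prs (X ∪ Y), ((run L P C t).Off q.1 q.2 *
      (if L.Coll q.1 q.2 v then 1 else (run L P C t).On q.1 q.2))⁻¹
  have hk : 0 ≤ Zv * z * (b * n1') * (c * n2') :=
    mul_nonneg (mul_nonneg (mul_nonneg hZ hz0) (mul_nonneg hb0 n1)) (mul_nonneg hc0 n2)
  calc Zv * z * (∏ s ∈ X ∪ Y, val L P X (t + 1) C' s) * (b * n1') * (c * n2')
      = (Zv * z * (b * n1') * (c * n2')) * ∏ s ∈ X ∪ Y, val L P X (t + 1) C' s := by ring
    _ ≤ (Zv * z * (b * n1') * (c * n2')) * ((∏ s ∈ (X ∪ Y).erase t, FFa L t C C' p s) *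
        (∏ s ∈ (X ∪ Y).erase t, val L P X t C s) *
        (if t ∈ X ∪ Y then (if t ∈ X then (if t ∈ C' then 1 else 0) else p) else 1)) :=
      mul_le_mul_of_nonneg_left hval hk
    _ = _ := by
      unfold FFG
      ring

/-- **One step of the product functional.** -/
theorem FF_step (hG : Good L P pb) (v : ℕ) (X Y : Finset ℕ) (hXY : Disjoint X Y)
    (hX : ∀ s ∈ X ∪ Y, s < v) (t : ℕ) (ht : t < v) (C : Finset ℕ) (hC : C ⊆ range t)
    (hs : ¬ (run L P C t).stop v) :
    pr L P C t * FF L P v X Y (t + 1) (insert t C) +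
      (1 - pr L P C t) * FF L P v X Y (t + 1) C ≤ FF L P v X Y t C := by
  have htC : t ∉ C := fun h => absurd (mem_range.1 (hC h)) (lt_irrefl _)
  have hq := one_sub_pr_pos hG C t
  have hp0 := pr_nonneg hG C t
  have b1 := FF_bound hG v X Y t ht C (insert t C) (fun x hx => by
    rw [mem_insert]
    constructor
    · rintro (h | h)
      · omega
      · exact h
    · exact Or.inr) hs
  have b2 := FF_bound hG v X Y t ht C C (fun x _ => Iff.rfl) hs
  have hin : t ∈ insert t C := mem_insert_self _ _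
  simp only [hin, if_true] at b1
  simp only [htC, if_false] at b2
  rw [FF_eq_FFG v X Y t C]
  have hG0 := FFG_nonneg hG v X Y t C
  set p := pr L P C t with hp
  set g := FFG L P v X Y t C with hg
  set T := X ∪ Y with hT
  -- the multiplier in the two cases
  set M1 := ((if L.Hit C t v then (0 : ℝ) else 1) * (∏ s ∈ T.erase t, FFa L t C (insert t C) p s) *
        (∏ s ∈ T, FFb L v t C p s) * ∏ q ∈ prs T, FFc L v t C p q) with hM1
  set M2 := ((if L.Hit C t v then (1 - p)⁻¹ else 1) * (∏ s ∈ T.erase t, FFa L t C C p s) *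
        (∏ s ∈ T, FFb L v t C p s) * ∏ q ∈ prs T, FFc L v t C p q) with hM2
  have hc0 : 0 ≤ ∏ q ∈ prs T, FFc L v t C p q :=
    prod_nonneg fun q _ => FFc_nonneg hq.le q
  have hc1 : ∏ q ∈ prs T, FFc L v t C p q ≤ 1 :=
    prod_le_one (fun q _ => FFc_nonneg hq.le q) (fun q _ => FFc_le_one hq.le hp0 q)
  have key : (M1 = 0 ∧ (1 - p) * M2 ≤ 1 ∧ 0 ≤ M2) ∨ (M1 ≤ 1 ∧ M2 ≤ 1 ∧ 0 ≤ M1 ∧ 0 ≤ M2) := by
    set S := T.filter (fun s => t < s ∧ L.Hit C t s) with hS
    have hSe : (T.erase t).filter (fun s => t < s ∧ L.Hit C t s) = S := by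
      ext s
      rw [mem_filter, mem_erase, hS, mem_filter]
      constructor
      · rintro ⟨⟨h1, h2⟩, h3⟩; exact ⟨h2, h3⟩
      · rintro ⟨h2, h3⟩; exact ⟨⟨by omega, h2⟩, h3⟩
    have ha : ∏ s ∈ T.erase t, FFa L t C C p s = ((1 - p)⁻¹) ^ S.card := by
      unfold FFa
      rw [← hSe, prod_ite, prod_const, prod_const_one, mul_one, if_neg htC]
    have hM2a : 0 ≤ ∏ s ∈ T.erase t, FFa L t C C p s := by
      rw [ha]; exact pow_nonneg (inv_nonneg.2 hq.le) _
    have hb : ∏ s ∈ T, FFb L v t C p s = if L.Hit C t v then (1 - p) ^ S.card else 1 := by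
      unfold FFb
      by_cases hv : L.Hit C t v
      · rw [if_pos hv]
        simp only [hv, true_and]
        rw [prod_ite, prod_const, prod_const_one, mul_one]
      · rw [if_neg hv]
        simp only [hv, false_and, if_false, prod_const_one]
    by_cases hv : L.Hit C t v
    · left
      refine ⟨?_, ?_, ?_⟩
      · rw [hM1, if_pos hv, zero_mul, zero_mul, zero_mul]
      · rw [hM2, ha, hb, if_pos hv, if_pos hv]
        have h1 : (1 - p) * ((1 - p)⁻¹ * (1 - p)⁻¹ ^ S.card * (1 - p) ^ S.card *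
            ∏ q ∈ prs T, FFc L v t C p q) = ∏ q ∈ prs T, FFc L v t C p q := by
          have h2 : (1 - p)⁻¹ ^ S.card * (1 - p) ^ S.card = 1 := by
            rw [← mul_pow, inv_mul_cancel₀ hq.ne', one_pow]
          calc _ = ((1 - p) * (1 - p)⁻¹) * ((1 - p)⁻¹ ^ S.card * (1 - p) ^ S.card) *
                ∏ q ∈ prs T, FFc L v t C p q := by ring
            _ = _ := by rw [h2, mul_inv_cancel₀ hq.ne', one_mul, one_mul]
        rw [h1]; exact hc1
      · rw [hM2, ha, hb, if_pos hv, if_pos hv]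
        have := inv_nonneg.2 hq.le
        positivity
    · by_cases hcard : S.card = 0
      · right
        have hSe0 : S = ∅ := card_eq_zero.1 hcard
        have ha1 : ∏ s ∈ T.erase t, FFa L t C (insert t C) p s = 1 := by
          refine prod_eq_one fun s hs' => ?_
          unfold FFa
          rw [if_neg]
          intro h1
          have : s ∈ S := by
            rw [hS, mem_filter]; exact ⟨(mem_erase.1 hs').2, h1⟩
          rw [hSe0] at this
          exact absurd this (notMem_empty _)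
        have e1 : M1 = ∏ q ∈ prs T, FFc L v t C p q := by
          rw [hM1, if_neg hv, ha1, hb, if_neg hv, one_mul, one_mul, one_mul]
        have e2 : M2 = ∏ q ∈ prs T, FFc L v t C p q := by
          rw [hM2, if_neg hv, ha, hcard, pow_zero, hb, if_neg hv, one_mul, one_mul, one_mul]
        rw [e1, e2]
        exact ⟨hc1, hc1, hc0, hc0⟩
      · left
        have h3 := (FFc_prod (L := L) (v := v) (t := t) (C := C) (T := T) hq.le hp0 hv).resolve_right
          hcard
        refine ⟨?_, ?_, ?_⟩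
        · obtain ⟨s, hs'⟩ := card_pos.1 (Nat.pos_of_ne_zero hcard)
          have hs2 : s ∈ T.erase t ∧ (t < s ∧ L.Hit C t s) := by
            rw [← hSe, mem_filter] at hs'; exact hs'
          have : ∏ s ∈ T.erase t, FFa L t C (insert t C) p s = 0 := by
            refine prod_eq_zero hs2.1 ?_
            unfold FFa
            rw [if_pos hs2.2, if_pos hin]
          rw [hM1, this, mul_zero, zero_mul, zero_mul]
        · rw [hM2, ha, hb, if_neg hv, if_neg hv, one_mul, mul_one, inv_pow]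
          have hpk : 0 < (1 - p) ^ S.card := pow_pos hq _
          calc (1 - p) * (((1 - p) ^ S.card)⁻¹ * ∏ q ∈ prs T, FFc L v t C p q)
              = ((1 - p) ^ S.card)⁻¹ * ((1 - p) * ∏ q ∈ prs T, FFc L v t C p q) := by ring
            _ ≤ ((1 - p) ^ S.card)⁻¹ * (1 - p) ^ S.card :=
                mul_le_mul_of_nonneg_left h3 (inv_nonneg.2 hpk.le)
            _ = 1 := inv_mul_cancel₀ hpk.ne'
        · rw [hM2, hb, if_neg hv, if_neg hv, one_mul, mul_one]
          exact mul_nonneg hM2a hc0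
  -- the value at `t`
  rcases key with ⟨k1, k2, k3⟩ | ⟨k1, k2, k3, k4⟩
  · have f1 : p * FF L P v X Y (t + 1) (insert t C) ≤ 0 := by
      have : FF L P v X Y (t + 1) (insert t C) ≤ 0 := by
        refine b1.trans (le_of_eq ?_)
        rw [k1, zero_mul, zero_mul]
      exact mul_nonpos_of_nonneg_of_nonpos hp0 this
    have f2 : (1 - p) * FF L P v X Y (t + 1) C ≤ g * (if t ∈ T then p else 1) := by
      have hr0 : 0 ≤ (if t ∈ T then (if t ∈ X then (0 : ℝ) else p) else 1) := by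
        split_ifs
        · exact le_rfl
        · exact hp0
        · exact zero_le_one
      have hr1 : (if t ∈ T then (if t ∈ X then (0 : ℝ) else p) else 1) ≤
          (if t ∈ T then p else 1) := by
        split_ifs
        · exact hp0
        · exact le_rfl
        · exact le_rfl
      calc (1 - p) * FF L P v X Y (t + 1) C
          ≤ (1 - p) * (M2 * g * (if t ∈ T then (if t ∈ X then (0 : ℝ) else p) else 1)) :=
            mul_le_mul_of_nonneg_left b2 hq.le
        _ = ((1 - p) * M2) * (g * (if t ∈ T then (if t ∈ X then (0 : ℝ) else p) else 1)) := by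
            ring
        _ ≤ 1 * (g * (if t ∈ T then (if t ∈ X then (0 : ℝ) else p) else 1)) :=
            mul_le_mul_of_nonneg_right k2 (mul_nonneg hG0 hr0)
        _ = g * (if t ∈ T then (if t ∈ X then (0 : ℝ) else p) else 1) := one_mul _
        _ ≤ _ := mul_le_mul_of_nonneg_left hr1 hG0
    linarith
  · have c1 : FF L P v X Y (t + 1) (insert t C) ≤
        g * (if t ∈ T then (if t ∈ X then 1 else p) else 1) := by
      have hr0 : 0 ≤ (if t ∈ T then (if t ∈ X then (1 : ℝ) else p) else 1) := by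
        split_ifs
        · exact zero_le_one
        · exact hp0
        · exact zero_le_one
      refine b1.trans ?_
      calc M1 * g * (if t ∈ T then (if t ∈ X then (1 : ℝ) else p) else 1)
          = M1 * (g * (if t ∈ T then (if t ∈ X then (1 : ℝ) else p) else 1)) := by ring
        _ ≤ 1 * (g * (if t ∈ T then (if t ∈ X then (1 : ℝ) else p) else 1)) :=
            mul_le_mul_of_nonneg_right k1 (mul_nonneg hG0 hr0)
        _ = _ := one_mul _
    have c2 : FF L P v X Y (t + 1) C ≤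
        g * (if t ∈ T then (if t ∈ X then 0 else p) else 1) := by
      have hr0 : 0 ≤ (if t ∈ T then (if t ∈ X then (0 : ℝ) else p) else 1) := by
        split_ifs
        · exact le_rfl
        · exact hp0
        · exact zero_le_one
      refine b2.trans ?_
      calc M2 * g * (if t ∈ T then (if t ∈ X then (0 : ℝ) else p) else 1)
          = M2 * (g * (if t ∈ T then (if t ∈ X then (0 : ℝ) else p) else 1)) := by ring
        _ ≤ 1 * (g * (if t ∈ T then (if t ∈ X then (0 : ℝ) else p) else 1)) :=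
            mul_le_mul_of_nonneg_right k2 (mul_nonneg hG0 hr0)
        _ = _ := one_mul _
    have d1 := mul_le_mul_of_nonneg_left c1 hp0
    have d2 := mul_le_mul_of_nonneg_left c2 hq.le
    refine (add_le_add d1 d2).trans (le_of_eq ?_)
    split_ifs
    · ring
    · ring
    · ring

end

end GPG
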