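import Pool.Agent.Helper96.GP.NDefs

/-!
# The nibble (classes one after the other, potential function)
-/

open Finset
open scoped Classical

namespace GPG

noncomputable section

theorem nib_exp_neg {x s : ℝ} (hx : 0 ≤ x) (hxs : x ≤ s) :
    Real.exp (-x) ≤ 1 - x * (1 - s / 2) := by
  have h1 := Real.quadratic_le_exp_of_nonneg hx
  have h2 : Real.exp (-x) ≤ 1 - x + x ^ 2 / 2 := by
    rw [Real.exp_neg]
    have h3 : 0 < 1 + x + x ^ 2 / 2 := by positivity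
    have h4 : (Real.exp x)⁻¹ ≤ (1 + x + x ^ 2 / 2)⁻¹ := inv_anti₀ h3 h1
    refine h4.trans ?_
    rw [inv_eq_one_div, div_le_iff₀ h3]
    nlinarith [sq_nonneg (x ^ 2)]
  nlinarith

theorem XX_nonneg {Q : Finset (ℕ × ℕ)} {c : ℕ × ℕ → ℝ} (hc : ∀ q ∈ Q, 0 ≤ c q)
    (V : Finset ℕ) : 0 ≤ XX Q c V :=
  sum_nonneg fun q hq => hc q (mem_filter.1 hq).1

theorem XX_diff (Q : Finset (ℕ × ℕ)) (c : ℕ × ℕ → ℝ) (V C : Finset ℕ) :
    XX Q c V - XX Q c (V \ C) = ∑ q ∈ Q.filter (fun q => q.1 ∈ V ∧ q.2 ∈ V),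
      c q * (if q.1 ∈ C ∨ q.2 ∈ C then 1 else 0) := by
  unfold XX
  have h1 : Q.filter (fun q => q.1 ∈ V \ C ∧ q.2 ∈ V \ C) =
      (Q.filter (fun q => q.1 ∈ V ∧ q.2 ∈ V)).filter (fun q => ¬ (q.1 ∈ C ∨ q.2 ∈ C)) := by
    ext q
    simp only [mem_filter, mem_sdiff]
    tauto
  rw [h1, ← sum_filter_add_sum_filter_not (Q.filter (fun q => q.1 ∈ V ∧ q.2 ∈ V))
    (fun q => q.1 ∈ C ∨ q.2 ∈ C) (fun q => c q), add_sub_cancel_right, sum_filter]
  refine sum_congr rfl fun q _ => ?_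
  split_ifs <;> simp

theorem XX_mono {Q : Finset (ℕ × ℕ)} {c : ℕ × ℕ → ℝ} (hc : ∀ q ∈ Q, 0 ≤ c q)
    (V C : Finset ℕ) : XX Q c (V \ C) ≤ XX Q c V := by
  have h := XX_diff Q c V C
  have h2 : 0 ≤ ∑ q ∈ Q.filter (fun q => q.1 ∈ V ∧ q.2 ∈ V),
      c q * (if q.1 ∈ C ∨ q.2 ∈ C then 1 else 0) := by
    refine sum_nonneg fun q hq => mul_nonneg (hc q (mem_filter.1 hq).1) ?_
    split_ifs
    · exact zero_le_one
    · exact le_rfl
  linarith

/-- the expected decrement -/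
theorem nib_ED {Q : Finset (ℕ × ℕ)} {c : ℕ × ℕ → ℝ} {r : ℕ} {κ M1 : ℝ} {V : Finset ℕ}
    {W : Finset ℕ → ℝ} (hM1 : 0 ≤ M1)
    (hr : (r = 1 ∧ ∀ q ∈ Q, q.1 = q.2) ∨ (r = 2 ∧ ∀ q ∈ Q, q.1 ≠ q.2))
    (hc : ∀ q ∈ Q, 0 ≤ c q)
    (h1 : ∀ v ∈ V, κ ≤ ∑ C ∈ V.powerset.filter (fun C => v ∈ C), W C)
    (h2 : ∀ u ∈ V, ∀ v ∈ V, u ≠ v →
      ∑ C ∈ V.powerset.filter (fun C => u ∈ C ∧ v ∈ C), W C ≤ M1 * κ ^ 2) :
    XX Q c V * (r * κ - M1 * κ ^ 2) ≤
      ∑ C ∈ V.powerset, W C * (XX Q c V - XX Q c (V \ C)) := by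
  have e1 : ∑ C ∈ V.powerset, W C * (XX Q c V - XX Q c (V \ C)) =
      ∑ q ∈ Q.filter (fun q => q.1 ∈ V ∧ q.2 ∈ V), c q *
        ∑ C ∈ V.powerset, W C * (if q.1 ∈ C ∨ q.2 ∈ C then 1 else 0) := by
    simp_rw [XX_diff, mul_sum]
    rw [sum_comm]
    refine sum_congr rfl fun q _ => sum_congr rfl fun C _ => ?_
    ring
  rw [e1]
  unfold XX
  rw [sum_mul]
  refine sum_le_sum fun q hq => ?_
  rw [mem_filter] at hq
  obtain ⟨hqQ, hq1, hq2⟩ := hq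
  refine mul_le_mul_of_nonneg_left ?_ (hc q hqQ)
  have e2 : ∀ v : ℕ, ∑ C ∈ V.powerset, W C * (if v ∈ C then (1 : ℝ) else 0) =
      ∑ C ∈ V.powerset.filter (fun C => v ∈ C), W C := by
    intro v
    rw [sum_filter]
    refine sum_congr rfl fun C _ => ?_
    split_ifs <;> simp
  have hk : 0 ≤ M1 * κ ^ 2 := mul_nonneg hM1 (sq_nonneg _)
  rcases hr with ⟨rfl, hr⟩ | ⟨rfl, hr⟩
  · have h3 := h1 q.1 hq1
    rw [← e2] at h3
    have h4 : ∑ C ∈ V.powerset, W C * (if q.1 ∈ C ∨ q.2 ∈ C then (1 : ℝ) else 0) =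
        ∑ C ∈ V.powerset, W C * (if q.1 ∈ C then (1 : ℝ) else 0) := by
      refine sum_congr rfl fun C _ => ?_
      have h5 : (q.1 ∈ C ∨ q.2 ∈ C) ↔ q.1 ∈ C := by rw [← hr q hqQ, or_self]
      simp only [h5]
    rw [h4]
    push_cast
    linarith
  · have h3 := h1 q.1 hq1
    have h4 := h1 q.2 hq2
    have h5 := h2 q.1 hq1 q.2 hq2 (hr q hqQ)
    rw [← e2] at h3 h4
    have h6 : ∑ C ∈ V.powerset, W C * (if q.1 ∈ C ∨ q.2 ∈ C then (1 : ℝ) else 0) =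
        ∑ C ∈ V.powerset, W C * (if q.1 ∈ C then (1 : ℝ) else 0) +
        ∑ C ∈ V.powerset, W C * (if q.2 ∈ C then (1 : ℝ) else 0) -
        ∑ C ∈ V.powerset.filter (fun C => q.1 ∈ C ∧ q.2 ∈ C), W C := by
      rw [sum_filter, ← sum_add_distrib, ← sum_sub_distrib]
      refine sum_congr rfl fun C _ => ?_
      by_cases a1 : q.1 ∈ C <;> by_cases a2 : q.2 ∈ C <;> simp [a1, a2]
    rw [h6]
    push_cast
    linarith

/-- the exponential moment after one step -/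
theorem nib_exp {Q : Finset (ℕ × ℕ)} {c : ℕ × ℕ → ℝ} {r : ℕ} {κ M1 Δ θ : ℝ} {V : Finset ℕ}
    {W : Finset ℕ → ℝ} {allowed : Finset ℕ → Prop} (hM1 : 0 ≤ M1) (hθ : 0 ≤ θ)
    (hθΔ : θ * Δ ≤ 1)
    (hr : (r = 1 ∧ ∀ q ∈ Q, q.1 = q.2) ∨ (r = 2 ∧ ∀ q ∈ Q, q.1 ≠ q.2))
    (hc : ∀ q ∈ Q, 0 ≤ c q)
    (hΔ : ∀ C ⊆ V, allowed C → XX Q c V - XX Q c (V \ C) ≤ Δ)
    (hW0 : ∀ C, 0 ≤ W C) (hWs : ∀ C, W C ≠ 0 → C ⊆ V ∧ allowed C)
    (hW1 : ∑ C ∈ V.powerset, W C = 1)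
    (h1 : ∀ v ∈ V, κ ≤ ∑ C ∈ V.powerset.filter (fun C => v ∈ C), W C)
    (h2 : ∀ u ∈ V, ∀ v ∈ V, u ≠ v →
      ∑ C ∈ V.powerset.filter (fun C => u ∈ C ∧ v ∈ C), W C ≤ M1 * κ ^ 2) :
    ∑ C ∈ V.powerset, W C * Real.exp (θ * XX Q c (V \ C)) ≤
      Real.exp (θ * XX Q c V * (1 - (r * κ - M1 * κ ^ 2) * (1 - θ * Δ / 2))) := by
  have hED := nib_ED hM1 hr hc h1 h2
  set X := XX Q c V with hX
  set ED := ∑ C ∈ V.powerset, W C * (X - XX Q c (V \ C)) with hEDdef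
  have hs : 0 ≤ 1 - θ * Δ / 2 := by linarith
  have e1 : ∀ C ∈ V.powerset, W C * Real.exp (θ * XX Q c (V \ C)) ≤
      Real.exp (θ * X) * (W C - W C * (X - XX Q c (V \ C)) * (θ * (1 - θ * Δ / 2))) := by
    intro C hC
    by_cases hWC : W C = 0
    · rw [hWC]; simp
    · obtain ⟨hCV, hCa⟩ := hWs C hWC
      have hD0 : 0 ≤ X - XX Q c (V \ C) := by
        have := XX_mono hc V C
        linarith
      have hD1 := hΔ C hCV hCa
      have e2 : Real.exp (θ * XX Q c (V \ C)) =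
          Real.exp (θ * X) * Real.exp (-(θ * (X - XX Q c (V \ C)))) := by
        rw [← Real.exp_add]
        congr 1; ring
      have e3 := nib_exp_neg (x := θ * (X - XX Q c (V \ C))) (s := θ * Δ)
        (mul_nonneg hθ hD0) (mul_le_mul_of_nonneg_left hD1 hθ)
      rw [e2]
      calc W C * (Real.exp (θ * X) * Real.exp (-(θ * (X - XX Q c (V \ C)))))
          = (Real.exp (θ * X) * W C) * Real.exp (-(θ * (X - XX Q c (V \ C)))) := by ring
        _ ≤ (Real.exp (θ * X) * W C) *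
            (1 - θ * (X - XX Q c (V \ C)) * (1 - θ * Δ / 2)) :=
            mul_le_mul_of_nonneg_left e3 (mul_nonneg (Real.exp_pos _).le (hW0 C))
        _ = _ := by ring
  calc ∑ C ∈ V.powerset, W C * Real.exp (θ * XX Q c (V \ C))
      ≤ ∑ C ∈ V.powerset, Real.exp (θ * X) *
        (W C - W C * (X - XX Q c (V \ C)) * (θ * (1 - θ * Δ / 2))) := sum_le_sum e1
    _ = Real.exp (θ * X) * (1 - ED * (θ * (1 - θ * Δ / 2))) := by
        rw [← mul_sum, sum_sub_distrib, hW1, ← sum_mul]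
    _ ≤ Real.exp (θ * X) * Real.exp (-(ED * (θ * (1 - θ * Δ / 2)))) := by
        refine mul_le_mul_of_nonneg_left ?_ (Real.exp_pos _).le
        have := Real.add_one_le_exp (-(ED * (θ * (1 - θ * Δ / 2))))
        linarith
    _ = Real.exp (θ * X - ED * (θ * (1 - θ * Δ / 2))) := by
        rw [← Real.exp_add]; congr 1
    _ ≤ _ := by
        apply Real.exp_le_exp.2
        have h3 : X * (r * κ - M1 * κ ^ 2) * (θ * (1 - θ * Δ / 2)) ≤
            ED * (θ * (1 - θ * Δ / 2)) :=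
          mul_le_mul_of_nonneg_right hED (mul_nonneg hθ hs)
        linarith

/-- the numerical inequality of one step -/
theorem nib_num {κ M1 τ : ℝ} {r : ℕ} (hr : r = 1 ∨ r = 2) (hκ0 : 0 ≤ κ) (hκ : κ ≤ 1 / 4)
    (hM1 : 0 ≤ M1) (hτ0 : 0 ≤ τ) :
    1 - (r * κ - M1 * κ ^ 2) * (1 - τ) ≤
      (1 - κ) ^ r * (1 + 16 / 9 * (M1 * κ ^ 2 + 2 * τ * κ)) := by
  have hA : 0 ≤ M1 * κ ^ 2 + 2 * τ * κ := by positivity
  have hMτ : 0 ≤ M1 * κ ^ 2 * τ := by positivity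
  rcases hr with rfl | rfl
  · push_cast
    have h1 : 9 / 16 ≤ 1 - κ := by linarith
    have h2 : M1 * κ ^ 2 + 2 * τ * κ ≤ (1 - κ) * (16 / 9 * (M1 * κ ^ 2 + 2 * τ * κ)) := by
      nlinarith
    have h3 : 0 ≤ τ * κ := mul_nonneg hτ0 hκ0
    nlinarith
  · push_cast
    have h1 : 9 / 16 ≤ (1 - κ) ^ 2 := by nlinarith
    have h2 : M1 * κ ^ 2 + 2 * τ * κ ≤ (1 - κ) ^ 2 * (16 / 9 * (M1 * κ ^ 2 + 2 * τ * κ)) := by
      nlinarith
    have h3 : 0 ≤ τ * κ := mul_nonneg hτ0 hκ0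
    nlinarith [sq_nonneg κ]

/-- one statistic, one step -/
theorem nib_one {Q : Finset (ℕ × ℕ)} {c : ℕ × ℕ → ℝ} {r : ℕ} {Δ α b n m M qe q : ℝ}
    {V : Finset ℕ} {W : Finset ℕ → ℝ} {allowed : Finset ℕ → Prop}
    (hn : 0 < n) (hm : 0 < m) (hM : 0 ≤ M) (hqe : 0 < qe) (hqe1 : qe ≤ 1)
    (hmn : 4 * m ≤ qe * n) (hq : qe ≤ q)
    (hr : (r = 1 ∧ ∀ q ∈ Q, q.1 = q.2) ∨ (r = 2 ∧ ∀ q ∈ Q, q.1 ≠ q.2))
    (hc : ∀ q ∈ Q, 0 ≤ c q) (hα : 0 < α) (hΔ0 : 0 ≤ Δ)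
    (hΔ : ∀ C ⊆ V, allowed C → XX Q c V - XX Q c (V \ C) ≤ Δ)
    (hαΔ : 4 * α * Δ ≤ qe ^ 2)
    (hX : XX Q c V ≤ q ^ r * b)
    (hW0 : ∀ C, 0 ≤ W C) (hWs : ∀ C, W C ≠ 0 → C ⊆ V ∧ allowed C)
    (hW1 : ∑ C ∈ V.powerset, W C = 1)
    (h1 : ∀ v ∈ V, m / (q * n) ≤ ∑ C ∈ V.powerset.filter (fun C => v ∈ C), W C)
    (h2 : ∀ u ∈ V, ∀ v ∈ V, u ≠ v →
      ∑ C ∈ V.powerset.filter (fun C => u ∈ C ∧ v ∈ C), W C ≤ M / (q * n) ^ 2) :
    ∑ C ∈ V.powerset, W C * Real.exp (α * (XX Q c (V \ C) / (q - m / n) ^ r)) ≤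
      Real.exp (α * (XX Q c V / q ^ r + b * (16 / 9 * (M / m ^ 2 * (m / (qe * n)) ^ 2 +
        16 / 9 * (α * Δ / qe ^ 2) * (m / (qe * n)))))) := by
  have hq0 : 0 < q := hqe.trans_le hq
  set κ := m / (q * n) with hκ
  set κe := m / (qe * n) with hκe
  have hqn : 0 < q * n := mul_pos hq0 hn
  have hqen : 0 < qe * n := mul_pos hqe hn
  have hκ0 : 0 ≤ κ := by positivity
  have hκκ : κ ≤ κe := by
    rw [hκ, hκe]
    exact div_le_div_of_nonneg_left hm.le hqen (mul_le_mul_of_nonneg_right hq hn.le)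
  have hκe4 : κe ≤ 1 / 4 := by
    rw [hκe, div_le_iff₀ hqen]; linarith
  have hκ4 : κ ≤ 1 / 4 := hκκ.trans hκe4
  have hr' : r = 1 ∨ r = 2 := hr.elim (fun h => Or.inl h.1) (fun h => Or.inr h.1)
  have hq' : q - m / n = q * (1 - κ) := by
    rw [hκ]; field_simp
  have hM1 : 0 ≤ M / m ^ 2 := by positivity
  have hMκ : M / (q * n) ^ 2 = M / m ^ 2 * κ ^ 2 := by
    rw [hκ]; field_simp
  have h1κ : 0 < 1 - κ := by linarith
  have hqr : 0 < q ^ r := pow_pos hq0 r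
  have h1κr : 0 < (1 - κ) ^ r := pow_pos h1κ r
  have hqpos : 0 < (q * (1 - κ)) ^ r := pow_pos (mul_pos hq0 h1κ) r
  have hqlow : 9 / 16 * qe ^ 2 ≤ (q * (1 - κ)) ^ r := by
    have h3 : 3 / 4 * qe ≤ q * (1 - κ) := by nlinarith
    rcases hr' with rfl | rfl
    · rw [pow_one]; nlinarith
    · have : (3 / 4 * qe) ^ 2 ≤ (q * (1 - κ)) ^ 2 := pow_le_pow_left₀ (by positivity) h3 2
      nlinarith
  set θ := α / (q * (1 - κ)) ^ r with hθ
  have hθ0 : 0 ≤ θ := by positivity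
  have hαΔ0 : 0 ≤ α * Δ := mul_nonneg hα.le hΔ0
  have hθΔ : θ * Δ ≤ 16 / 9 * (α * Δ / qe ^ 2) := by
    have e1 : θ * Δ = α * Δ / (q * (1 - κ)) ^ r := by rw [hθ]; ring
    rw [e1]
    calc α * Δ / (q * (1 - κ)) ^ r ≤ α * Δ / (9 / 16 * qe ^ 2) :=
          div_le_div_of_nonneg_left hαΔ0 (by positivity) hqlow
      _ = _ := by field_simp
  have hθΔ1 : θ * Δ ≤ 1 := by
    have : α * Δ / qe ^ 2 ≤ 1 / 4 := by
      rw [div_le_iff₀ (by positivity)]; linarith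
    linarith
  have hX0 := XX_nonneg hc V
  have key := nib_exp (Δ := Δ) (κ := κ) (M1 := M / m ^ 2) hM1 hθ0 hθΔ1 hr hc hΔ hW0 hWs hW1 h1
    (fun u hu v hv huv => (h2 u hu v hv huv).trans_eq hMκ)
  have e0 : ∀ C, α * (XX Q c (V \ C) / (q - m / n) ^ r) = θ * XX Q c (V \ C) := by
    intro C
    rw [hq', hθ]; ring
  simp_rw [e0]
  refine key.trans (Real.exp_le_exp.2 ?_)
  have hnum := nib_num (M1 := M / m ^ 2) (τ := θ * Δ / 2) hr' hκ0 hκ4 hM1 (by positivity)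
  set X := XX Q c V with hXdef
  have hθX : 0 ≤ θ * X := mul_nonneg hθ0 hX0
  have e2 : θ * X * (1 - κ) ^ r = α * (X / q ^ r) := by
    rw [hθ, mul_pow]
    field_simp
  have hY : X / q ^ r ≤ b := by
    rw [div_le_iff₀ hqr]; linarith
  have hY0 : 0 ≤ X / q ^ r := by positivity
  have hb0 : 0 ≤ b := hY0.trans hY
  set ξ' := 16 / 9 * (M / m ^ 2 * κ ^ 2 + 2 * (θ * Δ / 2) * κ) with hξ'
  have hξ0 : 0 ≤ ξ' := by positivity
  have hξ : ξ' ≤ 16 / 9 * (M / m ^ 2 * κe ^ 2 + 16 / 9 * (α * Δ / qe ^ 2) * κe) := by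
    rw [hξ']
    refine mul_le_mul_of_nonneg_left (add_le_add ?_ ?_) (by norm_num)
    · exact mul_le_mul_of_nonneg_left (pow_le_pow_left₀ hκ0 hκκ 2) hM1
    · have : 2 * (θ * Δ / 2) * κ = (θ * Δ) * κ := by ring
      rw [this]
      exact mul_le_mul hθΔ hκκ hκ0 (by positivity)
  calc θ * X * (1 - (r * κ - M / m ^ 2 * κ ^ 2) * (1 - θ * Δ / 2))
      ≤ θ * X * ((1 - κ) ^ r * (1 + ξ')) := mul_le_mul_of_nonneg_left hnum hθX
    _ = α * (X / q ^ r + X / q ^ r * ξ') := by rw [← mul_assoc, e2]; ring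
    _ ≤ _ := by
        refine mul_le_mul_of_nonneg_left ?_ hα.le
        have : X / q ^ r * ξ' ≤
            b * (16 / 9 * (M / m ^ 2 * κe ^ 2 + 16 / 9 * (α * Δ / qe ^ 2) * κe)) :=
          mul_le_mul hY hξ hξ0 hb0
        linarith

/-- **the nibble** -/
theorem nibble (U : Finset ℕ) (allowed : Finset ℕ → Prop) {ω : Type} (Ω : Finset ω)
    (Q : ω → Finset (ℕ × ℕ)) (c : ω → ℕ × ℕ → ℝ) (r : ω → ℕ) (Δ α b : ω → ℝ)
    (n m M qe : ℝ) (hn : 0 < n) (hm : 0 < m) (hM : 0 ≤ M) (hqe : 0 < qe) (hqe1 : qe ≤ 1)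
    (hmn : 4 * m ≤ qe * n)
    (hr : ∀ a ∈ Ω, (r a = 1 ∧ ∀ q ∈ Q a, q.1 = q.2) ∨ (r a = 2 ∧ ∀ q ∈ Q a, q.1 ≠ q.2))
    (hc : ∀ a ∈ Ω, ∀ q ∈ Q a, 0 ≤ c a q)
    (hα : ∀ a ∈ Ω, 0 < α a) (hΔ0 : ∀ a ∈ Ω, 0 ≤ Δ a) (hb0 : ∀ a ∈ Ω, 0 ≤ b a)
    (hΔ : ∀ a ∈ Ω, ∀ V ⊆ U, ∀ C ⊆ V, allowed C →
      XX (Q a) (c a) V - XX (Q a) (c a) (V \ C) ≤ Δ a)
    (hαΔ : ∀ a ∈ Ω, 4 * α a * Δ a ≤ qe ^ 2)
    (hb : ∀ a ∈ Ω, XX (Q a) (c a) U +
      b a * (2 * (10 + 4 * (M / m ^ 2)) * m / (qe ^ 2 * n) + 32 * α a * Δ a / qe ^ 3) +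
      Real.log Ω.card / α a ≤ b a)
    (hproc : ∀ q : ℝ, qe ≤ q → q ≤ 1 → ∀ V ⊆ U,
      (∀ a ∈ Ω, XX (Q a) (c a) V ≤ q ^ r a * b a) →
      ∃ W : Finset ℕ → ℝ, (∀ C, 0 ≤ W C) ∧ (∀ C, W C ≠ 0 → C ⊆ V ∧ allowed C) ∧
        (∑ C ∈ V.powerset, W C = 1) ∧
        (∀ v ∈ V, m / (q * n) ≤ ∑ C ∈ V.powerset.filter (fun C => v ∈ C), W C) ∧
        (∀ u ∈ V, ∀ v ∈ V, u ≠ v →
          ∑ C ∈ V.powerset.filter (fun C => u ∈ C ∧ v ∈ C), W C ≤ M / (q * n) ^ 2)) :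
    ∃ (J : ℕ) (Cs : ℕ → Finset ℕ), (J : ℝ) ≤ (1 - qe) * n / m + 1 ∧
      (∀ j < J, allowed (Cs j)) ∧
      ∀ a ∈ Ω, XX (Q a) (c a) (U \ (range J).biUnion Cs) ≤ qe ^ r a * b a := by
  -- the error per step
  obtain ⟨ξ, hξ⟩ : ∃ ξ : ω → ℝ, ∀ a, ξ a = 16 / 9 * (M / m ^ 2 * (m / (qe * n)) ^ 2 +
        16 / 9 * (α a * Δ a / qe ^ 2) * (m / (qe * n))) := ⟨_, fun a => rfl⟩
  have hξ0 : ∀ a ∈ Ω, 0 ≤ ξ a := by
    intro a ha
    have h1 := hα a ha
    have h2 := hΔ0 a ha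
    rw [hξ]; positivity
  have hmn' : m / n ≤ qe / 4 := by
    rw [div_le_iff₀ hn]; linarith
  set J := ⌈(1 - qe) * n / m⌉₊ with hJ
  have hJ0 : 0 ≤ (1 - qe) * n / m := by
    have : 0 ≤ 1 - qe := by linarith
    positivity
  have hJle : (J : ℝ) ≤ (1 - qe) * n / m + 1 := (Nat.ceil_lt_add_one hJ0).le
  have hJge : (1 - qe) * n / m ≤ J := Nat.le_ceil _
  have hjq : ∀ j < J, qe ≤ 1 - j * (m / n) := by
    intro j hj
    have h1 : (j : ℝ) < (1 - qe) * n / m := Nat.lt_ceil.1 hj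
    have h2 : (j : ℝ) * (m / n) ≤ (1 - qe) * n / m * (m / n) :=
      mul_le_mul_of_nonneg_right h1.le (by positivity)
    have h3 : (1 - qe) * n / m * (m / n) = 1 - qe := by field_simp
    linarith
  have hjpos : ∀ j ≤ J, 0 < 1 - j * (m / n) := by
    intro j hj
    have h1 : (j : ℝ) ≤ (1 - qe) * n / m + 1 := (Nat.cast_le.2 hj).trans hJle
    have h2 : (j : ℝ) * (m / n) ≤ ((1 - qe) * n / m + 1) * (m / n) :=
      mul_le_mul_of_nonneg_right h1 (by positivity)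
    have h3 : ((1 - qe) * n / m + 1) * (m / n) = 1 - qe + m / n := by field_simp
    linarith
  have hJq : 1 - J * (m / n) ≤ qe := by
    have h2 : (1 - qe) * n / m * (m / n) ≤ J * (m / n) :=
      mul_le_mul_of_nonneg_right hJge (by positivity)
    have h3 : (1 - qe) * n / m * (m / n) = 1 - qe := by field_simp
    linarith
  -- what the potential gives
  have hinv : ∀ j ≤ J, ∀ V : Finset ℕ,
      ∑ a ∈ Ω, Real.exp (α a * (XX (Q a) (c a) V / (1 - j * (m / n)) ^ r a -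
        XX (Q a) (c a) U - b a * ξ a * j)) ≤ Ω.card →
      ∀ a ∈ Ω, XX (Q a) (c a) V ≤ (1 - j * (m / n)) ^ r a * b a := by
    intro j hj V hsum a ha
    have hqj := hjpos j hj
    have hqr : 0 < (1 - j * (m / n)) ^ r a := pow_pos hqj _
    have h1 : Real.exp (α a * (XX (Q a) (c a) V / (1 - j * (m / n)) ^ r a -
        XX (Q a) (c a) U - b a * ξ a * j)) ≤ Ω.card :=
      (single_le_sum (f := fun a => Real.exp (α a * (XX (Q a) (c a) V /
        (1 - j * (m / n)) ^ r a - XX (Q a) (c a) U - b a * ξ a * j)))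
        (fun i _ => (Real.exp_pos _).le) ha).trans hsum
    have hcard : (0 : ℝ) < Ω.card := (Real.exp_pos _).trans_le h1
    have h2 := (Real.le_log_iff_exp_le hcard).2 h1
    have hαa := hα a ha
    have h3 : XX (Q a) (c a) V / (1 - j * (m / n)) ^ r a -
        XX (Q a) (c a) U - b a * ξ a * j ≤ Real.log Ω.card / α a := by
      rw [le_div_iff₀ hαa]; linarith
    have h4 : ξ a * j ≤
        2 * (10 + 4 * (M / m ^ 2)) * m / (qe ^ 2 * n) + 32 * α a * Δ a / qe ^ 3 := by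
      have h5 : (j : ℝ) ≤ n / m := by
        rw [le_div_iff₀ hm]
        have : (j : ℝ) * (m / n) ≤ 1 := by linarith
        have h6 : (j : ℝ) * (m / n) * n = j * m := by field_simp
        nlinarith
      have h7 : ξ a * j ≤ ξ a * (n / m) := mul_le_mul_of_nonneg_left h5 (hξ0 a ha)
      have hM1 : 0 ≤ M / m ^ 2 := by positivity
      have hΔa := hΔ0 a ha
      have h8 : ξ a * (n / m) = 16 / 9 * (M / m ^ 2) * (m / (qe ^ 2 * n)) +
          256 / 81 * (α a * Δ a / qe ^ 3) := by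
        rw [hξ]; field_simp; ring
      have h9 : 0 ≤ m / (qe ^ 2 * n) := by positivity
      have h10 : 0 ≤ α a * Δ a / qe ^ 3 := by positivity
      have h11 : 2 * (10 + 4 * (M / m ^ 2)) * m / (qe ^ 2 * n) + 32 * α a * Δ a / qe ^ 3 =
          20 * (m / (qe ^ 2 * n)) + 8 * (M / m ^ 2) * (m / (qe ^ 2 * n)) +
            32 * (α a * Δ a / qe ^ 3) := by ring
      have h12 : 0 ≤ (M / m ^ 2) * (m / (qe ^ 2 * n)) := mul_nonneg hM1 h9
      rw [h11]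
      nlinarith
    have h5 : b a * ξ a * j ≤
        b a * (2 * (10 + 4 * (M / m ^ 2)) * m / (qe ^ 2 * n) + 32 * α a * Δ a / qe ^ 3) := by
      rw [mul_assoc]
      exact mul_le_mul_of_nonneg_left h4 (hb0 a ha)
    have h6 : XX (Q a) (c a) V / (1 - j * (m / n)) ^ r a ≤ b a := by
      have := hb a ha
      linarith
    rw [div_le_iff₀ hqr] at h6
    linarith
  -- the induction
  have hind : ∀ j ≤ J, ∃ Cs : ℕ → Finset ℕ, (∀ i < j, allowed (Cs i)) ∧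
      ∑ a ∈ Ω, Real.exp (α a * (XX (Q a) (c a) (U \ (range j).biUnion Cs) /
        (1 - j * (m / n)) ^ r a - XX (Q a) (c a) U - b a * ξ a * j)) ≤ Ω.card := by
    intro j
    induction j with
    | zero =>
      intro _
      refine ⟨fun _ => ∅, fun i hi => absurd hi (Nat.not_lt_zero i), ?_⟩
      simp
    | succ j ih =>
      intro hj
      obtain ⟨Cs, hCs, hΦ⟩ := ih (by omega)
      set V := U \ (range j).biUnion Cs with hV
      have hjJ : j < J := by omega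
      have hVU : V ⊆ U := sdiff_subset
      have hXb := hinv j hjJ.le V hΦ
      have hqe' := hjq j hjJ
      have hq1 : 1 - (j : ℝ) * (m / n) ≤ 1 := by
        have : 0 ≤ (j : ℝ) * (m / n) := by positivity
        linarith
      obtain ⟨W, hW0, hWs, hW1, hp1, hp2⟩ := hproc _ hqe' hq1 V hVU hXb
      have hstep : ∀ a ∈ Ω, ∑ C ∈ V.powerset, W C * Real.exp (α a *
          (XX (Q a) (c a) (V \ C) / (1 - ((j + 1 : ℕ) : ℝ) * (m / n)) ^ r a -
            XX (Q a) (c a) U - b a * ξ a * ((j + 1 : ℕ) : ℝ))) ≤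
          Real.exp (α a * (XX (Q a) (c a) V / (1 - j * (m / n)) ^ r a -
            XX (Q a) (c a) U - b a * ξ a * j)) := by
        intro a ha
        have h1 := nib_one hn hm hM hqe hqe1 hmn hqe' (hr a ha) (hc a ha) (hα a ha)
          (hΔ0 a ha) (hΔ a ha V hVU) (hαΔ a ha) (hXb a ha) hW0 hWs hW1 hp1 hp2
        rw [← hξ a] at h1
        have e1 : (1 : ℝ) - ((j + 1 : ℕ) : ℝ) * (m / n) = 1 - j * (m / n) - m / n := by
          push_cast; ring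
        rw [e1]
        set K := Real.exp (-(α a * (XX (Q a) (c a) U + b a * ξ a * ((j + 1 : ℕ) : ℝ)))) with hK
        have hK0 : 0 ≤ K := (Real.exp_pos _).le
        have e2 : ∀ C, W C * Real.exp (α a *
          (XX (Q a) (c a) (V \ C) / (1 - j * (m / n) - m / n) ^ r a -
            XX (Q a) (c a) U - b a * ξ a * ((j + 1 : ℕ) : ℝ))) =
            K * (W C * Real.exp (α a * (XX (Q a) (c a) (V \ C) /
              (1 - j * (m / n) - m / n) ^ r a))) := by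
          intro C
          rw [mul_left_comm, hK, ← Real.exp_add]
          congr 2; ring
        simp_rw [e2]
        rw [← mul_sum]
        refine (mul_le_mul_of_nonneg_left h1 hK0).trans_eq ?_
        rw [hK, ← Real.exp_add]
        congr 1
        push_cast; ring
      have hsum : ∑ C ∈ V.powerset, W C * ∑ a ∈ Ω, Real.exp (α a *
          (XX (Q a) (c a) (V \ C) / (1 - ((j + 1 : ℕ) : ℝ) * (m / n)) ^ r a -
            XX (Q a) (c a) U - b a * ξ a * ((j + 1 : ℕ) : ℝ))) ≤ Ω.card := by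
        simp_rw [mul_sum]
        rw [sum_comm]
        exact (sum_le_sum hstep).trans hΦ
      obtain ⟨C, hCW, hCΦ⟩ : ∃ C, W C ≠ 0 ∧ ∑ a ∈ Ω, Real.exp (α a *
          (XX (Q a) (c a) (V \ C) / (1 - ((j + 1 : ℕ) : ℝ) * (m / n)) ^ r a -
            XX (Q a) (c a) U - b a * ξ a * ((j + 1 : ℕ) : ℝ))) ≤ Ω.card := by
        by_contra hcon
        push Not at hcon
        have h1 : ∑ C ∈ V.powerset, W C * (Ω.card : ℝ) < ∑ C ∈ V.powerset, W C *
            ∑ a ∈ Ω, Real.exp (α a *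
          (XX (Q a) (c a) (V \ C) / (1 - ((j + 1 : ℕ) : ℝ) * (m / n)) ^ r a -
            XX (Q a) (c a) U - b a * ξ a * ((j + 1 : ℕ) : ℝ))) := by
          have hex : ∃ C ∈ V.powerset, W C ≠ 0 := by
            by_contra hno
            push Not at hno
            rw [sum_eq_zero hno] at hW1
            exact zero_ne_one hW1
          obtain ⟨C0, hC0, hWC0⟩ := hex
          refine sum_lt_sum (fun C _ => ?_) ⟨C0, hC0, ?_⟩
          · by_cases hWC : W C = 0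
            · rw [hWC]; simp
            · exact mul_le_mul_of_nonneg_left (hcon C hWC).le (hW0 C)
          · exact mul_lt_mul_of_pos_left (hcon C0 hWC0)
              (lt_of_le_of_ne (hW0 C0) (Ne.symm hWC0))
        rw [← sum_mul, hW1, one_mul] at h1
        linarith
      obtain ⟨hCV, hCall⟩ := hWs C hCW
      refine ⟨Function.update Cs j C, ?_, ?_⟩
      · intro i hi
        rcases Nat.lt_succ_iff_lt_or_eq.1 hi with h | h
        · rw [Function.update_of_ne h.ne]; exact hCs i h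
        · rw [h, Function.update_self]; exact hCall
      · have e3 : U \ (range (j + 1)).biUnion (Function.update Cs j C) = V \ C := by
          have e4 : (range (j + 1)).biUnion (Function.update Cs j C) =
              (range j).biUnion Cs ∪ C := by
            rw [range_add_one, biUnion_insert, Function.update_self, union_comm]
            congr 1
            refine biUnion_congr rfl fun i hi => ?_
            rw [Function.update_of_ne (mem_range.1 hi).ne]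
          rw [e4, hV, sdiff_union_distrib]
          ext x
          simp only [mem_inter, mem_sdiff]
          tauto
        rw [e3]
        exact hCΦ
  obtain ⟨Cs, hCs, hΦ⟩ := hind J le_rfl
  refine ⟨J, Cs, hJle, hCs, fun a ha => ?_⟩
  refine (hinv J le_rfl _ hΦ a ha).trans ?_
  exact mul_le_mul_of_nonneg_right (pow_le_pow_left₀ (hjpos J le_rfl).le hJq _) (hb0 a ha)

end

end GPG
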